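import Pool.Agent.helper80.SG.Spec

/-!
# Project sg: (MP_b5a345_ag), module ABW
-/

set_option autoImplicit false
set_option linter.unusedSectionVars false

namespace Pool.Agent.SG

open MvPolynomial Module Pool.Agent.SV

theorem ABW_star (hBCA : BCA_stmt) (hZER : ZER_stmt) (hUG : UG_stmt)
    {E P J : Type} [AddCommGroup E] [Module ℂ E] [Module.Finite ℂ E] [AddCommGroup P]
    [Module ℂ P] [Finite J] (Φ : Bool → P → E →ₗ[ℂ] (J → ℂ)) (hLP : LinePoly Φ)
    (hDef : Deformable Φ (fun f : E => f ≠ 0)) (hvis : ∀ f : E, f ≠ 0 → ∃ p, Φ false p f ≠ 0)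
    (a b : ℕ) :
    ((cc Φ (a + 1) b = cc Φ a b ∧ cc Φ a (b + 1) = cc Φ a b ∧ cc Φ a b < cc Φ 0 0) ∨
      cc Φ a b = 0) → dmin Φ a b = 0 := by
  classical
  intro h
  set n := 2 * a + 2 * b + 1 with hn
  obtain ⟨⟨Z, hU⟩, -⟩ := hUG Φ hLP n
  set s : Fin a ↪ Fin n := Fin.castLEEmb (by omega) with hs
  set t : Fin b ↪ Fin n := Fin.castLEEmb (by omega) with ht
  have hnv : ∀ f ∈ Ker Φ (Z.1 ∘ s) (Z.2 ∘ t), ¬ (f ≠ 0) := by
    rcases h with ⟨h1, h2, h3⟩ | h1
    · exact hBCA Φ (fun f : E => f ≠ 0) hDef n a b Z.1 Z.2 hU (by omega) (by omega) h1 h2 h3 s t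
    · exact hZER Φ (fun f : E => f ≠ 0) hvis a b (Z.1 ∘ s) (Z.2 ∘ t) h1 (hU a b s t)
  rw [← hU a b s t, Submodule.finrank_eq_zero, Submodule.eq_bot_iff]
  intro f hf
  exact not_not.1 (hnv f hf)

theorem ABW (hBCA : BCA_stmt) (hZER : ZER_stmt) (hMON : MON_stmt) (hRKB : RKB_stmt)
    (hUG : UG_stmt) : ABW_stmt := by
  classical
  intro E P J _ _ _ _ _ _ Φ hLP hDef hvis D B r g hD hB hlarge
  set N := cc Φ 0 0 with hN
  obtain ⟨b1, b2, b3, b4⟩ := hRKB Φ
  have hT : ∀ a b, dmin Φ a b ≤ dmin Φ (a + 1) b + D := b2 D hD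
  have hTB : ∀ a b, dmin Φ a b ≤ dmin Φ (a + 1) b + B := b2 B (fun x => hB true x)
  have hF : ∀ a b, dmin Φ a b ≤ dmin Φ a (b + 1) + B := b3 B (fun x => hB false x)
  have hmon := hMON Φ hLP
  have hNB : N ≤ B := by
    have h2 := hF 0 0
    rw [hN]
    unfold cc
    omega
  have hccN : ∀ a b, cc Φ a b ≤ N := by
    have h1 : ∀ a, cc Φ a 0 ≤ N := by
      intro a
      induction a with
      | zero => rw [hN]
      | succ a ih => exact (hmon a 0).2.2.1.trans ih
    intro a b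
    induction b with
    | zero => exact h1 a
    | succ b ih => exact (hmon a b).2.2.2.trans ih
  have hlow1 : ∀ a, dmin Φ 0 0 ≤ dmin Φ a 0 + a * D := by
    intro a
    induction a with
    | zero => simp
    | succ a ih =>
      have := hT a 0
      rw [Nat.succ_mul]
      omega
  have hlow2 : ∀ i, dmin Φ r 0 ≤ dmin Φ (r + i) 0 + i * B := by
    intro i
    induction i with
    | zero => simp
    | succ i ih =>
      have := hTB (r + i) 0
      rw [Nat.succ_mul, show r + (i + 1) = r + i + 1 by omega]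
      omega
  have hlow3 : ∀ i b, dmin Φ r 0 ≤ dmin Φ (r + i) b + (i + b) * B := by
    intro i b
    induction b with
    | zero => simpa using hlow2 i
    | succ b ih =>
      have := hF (r + i) b
      rw [show i + (b + 1) = (i + b) + 1 by omega, Nat.succ_mul]
      omega
  have hstar := ABW_star hBCA hZER hUG Φ hLP hDef hvis
  have hdesc : ∀ m a b, cc Φ a b ≤ m → cc Φ a b < N →
      ∃ i₁ i₂, i₁ + i₂ ≤ m ∧ dmin Φ (a + i₁) (b + i₂) = 0 := by
    intro m
    induction m with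
    | zero =>
      intro a b h1 _
      exact ⟨0, 0, le_rfl, hstar a b (Or.inr (Nat.le_zero.1 h1))⟩
    | succ m ih =>
      intro a b h1 h2
      by_cases h3 : cc Φ (a + 1) b = cc Φ a b ∧ cc Φ a (b + 1) = cc Φ a b
      · exact ⟨0, 0, Nat.zero_le _, hstar a b (Or.inl ⟨h3.1, h3.2, h2⟩)⟩
      · have m1 := (hmon a b).2.2.1
        have m2 := (hmon a b).2.2.2
        by_cases h4 : cc Φ (a + 1) b = cc Φ a b
        · have h5 : cc Φ a (b + 1) < cc Φ a b := lt_of_le_of_ne m2 (fun h => h3 ⟨h4, h⟩)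
          obtain ⟨i₁, i₂, h6, h7⟩ := ih a (b + 1) (by omega) (by omega)
          refine ⟨i₁, i₂ + 1, by omega, ?_⟩
          rw [show b + (i₂ + 1) = b + 1 + i₂ by omega]
          exact h7
        · have h5 : cc Φ (a + 1) b < cc Φ a b := lt_of_le_of_ne m1 h4
          obtain ⟨i₁, i₂, h6, h7⟩ := ih (a + 1) b (by omega) (by omega)
          refine ⟨i₁ + 1, i₂, by omega, ?_⟩
          rw [show a + (i₁ + 1) = a + 1 + i₁ by omega]
          exact h7
  have hclaim : ∀ b, b < g → cc Φ r b = N := by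
    intro b hb
    by_contra hne
    have h1 : cc Φ r b < N := lt_of_le_of_ne (hccN r b) hne
    obtain ⟨i₁, i₂, h2, h3⟩ := hdesc (N - 1) r b (by omega) h1
    have h4 := hlow3 i₁ (b + i₂)
    rw [h3] at h4
    have h5 := hlow1 r
    rw [b1] at h5
    have h6 : (i₁ + (b + i₂)) + 1 ≤ g + B := by omega
    have h7 : ((i₁ + (b + i₂)) + 1) * B ≤ (g + B) * B := Nat.mul_le_mul_right _ h6
    rw [Nat.succ_mul] at h7
    omega
  have hfin : ∀ b, b ≤ g → dmin Φ r b + b * N = dmin Φ r 0 := by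
    intro b
    induction b with
    | zero => intro _; simp
    | succ b ih =>
      intro hb
      have h1 := ih (by omega)
      have h2 := hclaim b (by omega)
      have h3 := (hmon r b).2.1
      unfold cc at h2
      rw [Nat.succ_mul]
      omega
  exact hfin g le_rfl

end Pool.Agent.SG
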