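import Pool.Agent.helper80.SG.Spec2

/-!
# Project sq: (MP_b5a345_ag), module AN2
-/

set_option autoImplicit false
set_option linter.unusedSectionVars false

namespace Pool.Agent.SG

open MvPolynomial Module Pool.Agent.SV

theorem AN2_poly1 (m n : ℕ) (hm : 2 ≤ m) (hn : 1 ≤ n) :
    4 * (n + 1) + (m + 1) * (4 * (n + 1) + 3 * (n * (m + 1)) + 4 * n + 8 * (n + 1) ^ 2 + 32) ≤
      4 * (m + 1) * ((n + 1) * (2 * n + 3 * m + 3)) := by
  obtain ⟨a, rfl⟩ := Nat.exists_eq_add_of_le hm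
  obtain ⟨b, rfl⟩ := Nat.exists_eq_add_of_le hn
  have h : 4 * (2 + a + 1) * ((1 + b + 1) * (2 * (1 + b) + 3 * (2 + a) + 3)) =
      4 * (1 + b + 1) + (2 + a + 1) * (4 * (1 + b + 1) + 3 * ((1 + b) * (2 + a + 1)) + 4 * (1 + b) +
        8 * (1 + b + 1) ^ 2 + 32) +
      (9 * a ^ 2 * b + 21 * a ^ 2 + 38 * a * b + 66 * a + 29 * b + 1) := by
    ring
  rw [h]
  exact Nat.le_add_right _ _

theorem AN2_poly2 (m n : ℕ) :
    m * (n * (3 * n + 5) + 4 * (n + 1) ^ 2) ≤ (m + n + 1) * (n + 1) * (2 * n + 3 * m + 3) := by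
  have h : ((m : ℤ) * (n * (3 * n + 5) + 4 * (n + 1) ^ 2)) ≤
      ((m : ℤ) + n + 1) * (n + 1) * (2 * n + 3 * m + 3) := by
    have h1 : ((m : ℤ) + n + 1) * (n + 1) * (2 * n + 3 * m + 3) -
        ((m : ℤ) * (n * (3 * n + 5) + 4 * (n + 1) ^ 2)) =
        ((n : ℤ) + 1) * ((n : ℤ) + 1 - m) ^ 2 + ((n : ℤ) + 1) ^ 3 + 2 * (n + 1) * m ^ 2 +
          (n + 1) ^ 2 + 2 * m * (n + 1) + 2 * m := by
      ring
    have h2 : 0 ≤ ((n : ℤ) + 1) * ((n : ℤ) + 1 - m) ^ 2 + ((n : ℤ) + 1) ^ 3 + 2 * (n + 1) * m ^ 2 +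
          (n + 1) ^ 2 + 2 * m * (n + 1) + 2 * m := by
      positivity
    linarith
  exact_mod_cast h

theorem AN2 : AN2_stmt := by
  intro m n M s hm hn hT hs
  have hDpos : 0 < m + n + 1 := by omega
  have ha : s * (m + n + 1) ≤ (m + 1) * M + (m + n) := by
    rcases hs with h | h
    · rw [h]
      exact (Nat.div_mul_le_self _ _).trans (Nat.le_add_right _ _)
    · rw [h]
      exact Nat.div_mul_le_self _ _
  have hb : (m + 1) * M ≤ s * (m + n + 1) + (m + n) := by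
    rcases hs with h | h
    · have h1 := Nat.div_add_mod ((m + 1) * M) (m + n + 1)
      have h2 := Nat.mod_lt ((m + 1) * M) hDpos
      rw [← h, mul_comm] at h1
      omega
    · have h1 := Nat.div_add_mod ((m + 1) * M + (m + n)) (m + n + 1)
      have h2 := Nat.mod_lt ((m + 1) * M + (m + n)) hDpos
      rw [← h, mul_comm] at h1
      omega
  set σ := s / (m + 1) with hσ
  have hσ1 : (m + 1) * σ ≤ s := Nat.mul_div_le s (m + 1)
  have hσ2 : s + 1 ≤ (m + 1) * (σ + 1) := by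
    have := Nat.lt_mul_div_succ s (Nat.succ_pos m)
    exact this
  refine ⟨ha, hb, ?_, ?_, ?_⟩
  · have h1 : (s + 1) * (m + n + 1) ≤ (m + 1) * (σ + 1) * (m + n + 1) :=
      Nat.mul_le_mul_right _ hσ2
    have h2 : (m + 1) * M + 1 ≤ (s + 1) * (m + n + 1) := by
      have e : (s + 1) * (m + n + 1) = s * (m + n + 1) + (m + n + 1) := by ring
      rw [e]
      omega
    have h3 : (m + 1) * M < (m + 1) * ((σ + 1) * (m + n + 1)) := by
      calc (m + 1) * M < (m + 1) * M + 1 := Nat.lt_succ_self _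
        _ ≤ (s + 1) * (m + n + 1) := h2
        _ ≤ (m + 1) * (σ + 1) * (m + n + 1) := h1
        _ = (m + 1) * ((σ + 1) * (m + n + 1)) := by ring
    have h4 : M < (σ + 1) * (m + n + 1) := Nat.lt_of_mul_lt_mul_left h3
    have h5 : m * (3 * (n + 1) * (m + n + 1)) ≤ m * M := by
      refine le_trans ?_ hT
      have : (m + n + 1) * (n + 1) * (2 * n + 3 * m + 3) =
          m * (3 * (n + 1) * (m + n + 1)) + (m + n + 1) * (n + 1) * (2 * n + 3) := by ring
      rw [this]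
      exact Nat.le_add_right _ _
    have h6 : 3 * (n + 1) * (m + n + 1) ≤ M := Nat.le_of_mul_le_mul_left h5 (by omega)
    have h7 : 3 * (n + 1) * (m + n + 1) < (σ + 1) * (m + n + 1) := lt_of_le_of_lt h6 h4
    have h8 : 3 * (n + 1) < σ + 1 := Nat.lt_of_mul_lt_mul_right h7
    omega
  · intro g hg
    have h1 : (m + 1) * σ * (m + n + 1) ≤ (m + 1) * M + (m + n) :=
      (Nat.mul_le_mul_right _ hσ1).trans ha
    have hpoly := AN2_poly1 m n hm hn
    -- multiply by `4 (m+1) D`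
    have h2 : 4 * (m + 1) * (m + n + 1) * ((σ + 1) * (n + 1) + 3 * g + n + 2 * (n + 1) ^ 2 + 8) ≤
        4 * (m + 1) * (m + n + 1) * M := by
      have e1 : 4 * (m + 1) * (m + n + 1) * ((σ + 1) * (n + 1) + 3 * g + n + 2 * (n + 1) ^ 2 + 8) =
          4 * (n + 1) * ((m + 1) * σ * (m + n + 1)) +
            (m + 1) * (m + n + 1) * (4 * (n + 1) + 3 * (4 * g) + 4 * n + 8 * (n + 1) ^ 2 + 32) := by
        ring
      have e2 : 4 * (n + 1) * ((m + 1) * σ * (m + n + 1)) ≤ 4 * (n + 1) * ((m + 1) * M + (m + n)) :=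
        Nat.mul_le_mul_left _ h1
      have e3 : (m + 1) * (m + n + 1) * (4 * (n + 1) + 3 * (4 * g) + 4 * n + 8 * (n + 1) ^ 2 + 32) ≤
          (m + 1) * (m + n + 1) * (4 * (n + 1) + 3 * (n * (m + 1)) + 4 * n + 8 * (n + 1) ^ 2 + 32) := by
        apply Nat.mul_le_mul_left
        omega
      have e4 : (m + n + 1) * (4 * (n + 1) + (m + 1) * (4 * (n + 1) + 3 * (n * (m + 1)) + 4 * n +
          8 * (n + 1) ^ 2 + 32)) ≤ (m + n + 1) * (4 * (m + 1) * ((n + 1) * (2 * n + 3 * m + 3))) :=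
        Nat.mul_le_mul_left _ hpoly
      have e5 : 4 * (m + 1) * ((m + n + 1) * (n + 1) * (2 * n + 3 * m + 3)) ≤
          4 * (m + 1) * (m * M) := Nat.mul_le_mul_left _ hT
      have e6 : 4 * (n + 1) * (m + n) ≤ 4 * (n + 1) * (m + n + 1) :=
        Nat.mul_le_mul_left _ (Nat.le_succ _)
      have e7 : 4 * (m + 1) * (m + n + 1) * M = 4 * (n + 1) * ((m + 1) * M) + 4 * (m + 1) * (m * M) := by
        ring
      rw [e1, e7]
      calc 4 * (n + 1) * ((m + 1) * σ * (m + n + 1)) +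
            (m + 1) * (m + n + 1) * (4 * (n + 1) + 3 * (4 * g) + 4 * n + 8 * (n + 1) ^ 2 + 32)
          ≤ 4 * (n + 1) * ((m + 1) * M + (m + n)) +
            (m + 1) * (m + n + 1) * (4 * (n + 1) + 3 * (n * (m + 1)) + 4 * n + 8 * (n + 1) ^ 2 + 32) :=
            Nat.add_le_add e2 e3
        _ = 4 * (n + 1) * ((m + 1) * M) + (4 * (n + 1) * (m + n) +
            (m + 1) * (m + n + 1) * (4 * (n + 1) + 3 * (n * (m + 1)) + 4 * n + 8 * (n + 1) ^ 2 + 32)) := by
            ring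
        _ ≤ 4 * (n + 1) * ((m + 1) * M) + (4 * (n + 1) * (m + n + 1) +
            (m + 1) * (m + n + 1) * (4 * (n + 1) + 3 * (n * (m + 1)) + 4 * n + 8 * (n + 1) ^ 2 + 32)) := by
            apply Nat.add_le_add_left
            exact Nat.add_le_add_right e6 _
        _ = 4 * (n + 1) * ((m + 1) * M) + (m + n + 1) * (4 * (n + 1) + (m + 1) * (4 * (n + 1) +
            3 * (n * (m + 1)) + 4 * n + 8 * (n + 1) ^ 2 + 32)) := by
            ring
        _ ≤ 4 * (n + 1) * ((m + 1) * M) +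
            (m + n + 1) * (4 * (m + 1) * ((n + 1) * (2 * n + 3 * m + 3))) :=
            Nat.add_le_add_left e4 _
        _ = 4 * (n + 1) * ((m + 1) * M) +
            4 * (m + 1) * ((m + n + 1) * (n + 1) * (2 * n + 3 * m + 3)) := by
            ring
        _ ≤ 4 * (n + 1) * ((m + 1) * M) + 4 * (m + 1) * (m * M) := Nat.add_le_add_left e5 _
    exact Nat.le_of_mul_le_mul_left h2 (by positivity)
  · have h1 : m * (n * (3 * n + 5) + 4 * (n + 1) ^ 2) ≤ m * M := (AN2_poly2 m n).trans hT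
    exact Nat.le_of_mul_le_mul_left h1 (by omega)

end Pool.Agent.SG
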