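import Pool.Agent.helper17.SG.SpecB

/-!
B09 of project sg: (MP_2b8aea_gt): layer sums.
-/

set_option autoImplicit false

open MeasureTheory Set Metric Filter Topology
open scoped ENNReal NNReal ComplexConjugate

namespace Pool.Agent.SG

open Complex in
theorem B09_im (u z : ℂ) (hs : u + z ≠ 0) :
    (I * (u - z) / (u + z)).im = (‖u‖ ^ 2 - ‖z‖ ^ 2) / ‖u + z‖ ^ 2 := by
  have hn : Complex.normSq (u + z) ≠ 0 := by
    rw [Ne, Complex.normSq_eq_zero]
    exact hs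
  rw [← Complex.normSq_eq_norm_sq, ← Complex.normSq_eq_norm_sq, ← Complex.normSq_eq_norm_sq,
    Complex.div_im]
  field_simp
  simp only [Complex.normSq_apply, Complex.mul_re, Complex.mul_im, Complex.I_re, Complex.I_im,
    Complex.add_re, Complex.add_im, Complex.sub_re, Complex.sub_im]
  ring

open Complex in
theorem B09_inv (u z : ℂ) (x : ℝ) (hu : ‖u‖ = 1) (hz : ‖z‖ < 1) (hs : u + z ≠ 0) :
    ‖z - u * (I - x) / (I + x)‖ ≤ 2 * ‖I * (u - z) / (u + z) - x‖ := by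
  set h : ℂ := I * (u - z) / (u + z) with hh
  have him : 0 ≤ h.im := by
    rw [hh, B09_im u z hs, hu]
    apply div_nonneg _ (by positivity)
    have : ‖z‖ ^ 2 ≤ 1 := by
      have := pow_le_pow_left₀ (norm_nonneg z) hz.le 2
      simpa using this
    linarith
  have h1 : 1 ≤ ‖I + h‖ := by
    have h2 := Complex.abs_im_le_norm (I + h)
    have h3 : (I + h).im = 1 + h.im := by simp
    rw [h3, abs_of_nonneg (by linarith)] at h2
    linarith
  have h2 : 1 ≤ ‖I + (x : ℂ)‖ := by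
    have h3 := Complex.abs_im_le_norm (I + (x : ℂ))
    have h4 : (I + (x : ℂ)).im = 1 := by simp
    rw [h4, abs_one] at h3
    exact h3
  have hne1 : I + h ≠ 0 := by
    intro h0
    rw [h0, norm_zero] at h1
    linarith
  have hne2 : I + (x : ℂ) ≠ 0 := by
    intro h0
    rw [h0, norm_zero] at h2
    linarith
  have hu0 : u ≠ 0 := by
    rintro rfl
    simp at hu
  have hzz : z * (I + h) = u * (I - h) := by
    rw [hh]
    field_simp
    ring
  have hid : z - u * (I - x) / (I + x) = u * (2 * I * ((x : ℂ) - h)) / ((I + h) * (I + x)) := by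
    rw [eq_div_iff (mul_ne_zero hne1 hne2), sub_mul]
    have e1 : u * (I - x) / (I + x) * ((I + h) * (I + x)) = u * (I - x) * (I + h) := by
      field_simp
    rw [e1]
    linear_combination (I + (x : ℂ)) * hzz
  rw [hid, norm_div, norm_mul, norm_mul, norm_mul, norm_mul, hu, Complex.norm_I, norm_sub_rev]
  rw [div_le_iff₀ (by positivity)]
  have h3 : 1 ≤ ‖I + h‖ * ‖I + (x : ℂ)‖ := by nlinarith
  have h4 : (0 : ℝ) ≤ ‖h - (x : ℂ)‖ := norm_nonneg _
  have h5 : ‖(2 : ℂ)‖ = 2 := by simp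
  rw [h5]
  nlinarith

open Complex in
theorem B09_geo (u z : ℂ) (t M : ℝ) (hu : ‖u‖ = 1) (hz : ‖z‖ < 1)
    (hH : ‖u - z‖ / ‖u + z‖ ≤ 1) (hHt : |‖u - z‖ / ‖u + z‖ - t| ≤ M * (1 - ‖z‖ ^ 2)) :
    ‖z - u * (I - (t : ℝ)) / (I + (t : ℝ))‖ ≤ 2 * (M + 2) * (1 - ‖z‖ ^ 2) ∨
    ‖z - u * (I - ((-t : ℝ) : ℂ)) / (I + ((-t : ℝ) : ℂ))‖ ≤ 2 * (M + 2) * (1 - ‖z‖ ^ 2) := by
  have hs : u + z ≠ 0 := by
    intro h0
    have : u = -z := eq_neg_of_add_eq_zero_left h0
    rw [this, norm_neg] at hu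
    linarith
  have hspos : 0 < ‖u + z‖ := norm_pos_iff.2 hs
  rw [div_le_one hspos] at hH
  have hs1 : 1 ≤ ‖u + z‖ := by
    have h1 := norm_add_le (u - z) (u + z)
    have h2 : u - z + (u + z) = 2 * u := by ring
    rw [h2, norm_mul, hu] at h1
    have h5 : ‖(2 : ℂ)‖ = 2 := by simp
    rw [h5] at h1
    linarith
  set h : ℂ := I * (u - z) / (u + z) with hh
  have hnorm : ‖h‖ = ‖u - z‖ / ‖u + z‖ := by
    rw [hh, norm_div, norm_mul, Complex.norm_I, one_mul]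
  set r : ℝ := 1 - ‖z‖ ^ 2 with hr
  have hr0 : 0 ≤ r := by
    have := pow_le_pow_left₀ (norm_nonneg z) hz.le 2
    rw [hr]
    simp only [one_pow] at this
    linarith
  have him : h.im = r / ‖u + z‖ ^ 2 := by
    rw [hh, B09_im u z hs, hu, hr]
    ring
  have him0 : 0 ≤ h.im := by
    rw [him]
    positivity
  have himr : h.im ≤ r := by
    rw [him]
    apply div_le_self hr0
    nlinarith
  rw [← hnorm] at hHt
  have h1 := Complex.abs_re_le_norm h
  have h2 := Complex.norm_le_abs_re_add_abs_im h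
  rw [abs_of_nonneg him0] at h2
  have h3 := abs_le.1 hHt
  rcases le_total 0 h.re with hre | hre
  · left
    refine le_trans (B09_inv u z t hu hz hs) ?_
    rw [← hh]
    rw [abs_of_nonneg hre] at h1 h2
    have h4 := Complex.norm_le_abs_re_add_abs_im (h - (t : ℂ))
    have h5 : (h - (t : ℂ)).re = h.re - t := by simp
    have h6 : (h - (t : ℂ)).im = h.im := by simp
    rw [h5, h6, abs_of_nonneg him0] at h4
    have h7 : |h.re - t| ≤ (M + 1) * r := by
      rw [abs_le]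
      constructor <;> nlinarith [h3.1, h3.2]
    nlinarith
  · right
    refine le_trans (B09_inv u z (-t) hu hz hs) ?_
    rw [← hh]
    rw [abs_of_nonpos hre] at h1 h2
    have h4 := Complex.norm_le_abs_re_add_abs_im (h - ((-t : ℝ) : ℂ))
    have h5 : (h - ((-t : ℝ) : ℂ)).re = h.re + t := by simp
    have h6 : (h - ((-t : ℝ) : ℂ)).im = h.im := by simp
    rw [h5, h6, abs_of_nonneg him0] at h4
    have h7 : |h.re + t| ≤ (M + 1) * r := by
      rw [abs_le]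
      constructor <;> nlinarith [h3.1, h3.2]
    nlinarith

open Classical in
theorem B09 (h3 : B03_stmt) (h7 : B07_stmt) : B09_stmt := by
  intro Γ _ A hA M hM
  obtain ⟨hkk, -, -, hpt, -⟩ := h3 Γ A
  obtain ⟨-, hpack⟩ := h7 Γ A hA (2 * (M + 2)) (by linarith)
  set N : ℕ := {δ | 1 / (9 * (2 * (M + 2)) ^ 4) ≤ A.kk δ}.ncard with hN
  refine ⟨4 * N + 1, by positivity, ?_⟩
  intro u t η hu ht ht1 hη
  have hηt : 0 < η * t := mul_pos hη ht
  set S : Set Γ := {γ | A.Hu u γ ≤ 1 ∧ A.Hu u γ ≤ M * t ∧ |A.Hu u γ - t| ≤ M * A.kk γ ∧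
      A.kk γ ≤ η * t} with hS
  rw [ENNReal.tsum_eq_iSup_sum]
  apply iSup_le
  intro F₀
  -- the finite sum
  set F : Finset Γ := F₀.filter (fun γ => γ ∈ S) with hF
  have hFS : ∀ γ ∈ F, γ ∈ S := fun γ hγ => (Finset.mem_filter.1 hγ).2
  have e1 : ∑ γ ∈ F₀, S.indicator A.ke γ = ENNReal.ofReal (∑ γ ∈ F, A.kk γ) := by
    rw [ENNReal.ofReal_sum_of_nonneg (fun γ _ => (hkk γ).1.le), hF, Finset.sum_filter]
    apply Finset.sum_congr rfl
    intro γ _
    rw [Set.indicator_apply]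
    rfl
  rw [e1]
  apply ENNReal.ofReal_le_ofReal
  -- the scale
  have hex : ∀ γ ∈ F, ∃ j : ℕ, (1 / 2 : ℝ) ^ (j + 1) < A.kk γ / (η * t) ∧
      A.kk γ / (η * t) ≤ (1 / 2 : ℝ) ^ j := by
    intro γ hγ
    obtain ⟨-, -, -, h4⟩ := hFS γ hγ
    apply exists_nat_pow_near_of_lt_one
    · exact div_pos (hkk γ).1 hηt
    · rw [div_le_one hηt]
      exact h4
    · norm_num
    · norm_num
  choose! j hj using hex
  have hcard : ∀ i : ℕ, ((F.filter (fun γ => j γ = i)).card : ℝ) ≤ 2 * N := by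
    intro i
    set τ : ℝ := η * t * (1 / 2 : ℝ) ^ i with hτ
    have hτ0 : 0 < τ := by positivity
    set G := F.filter (fun γ => j γ = i) with hG
    have hGk : ∀ γ ∈ G, τ / 2 < A.kk γ ∧ A.kk γ ≤ τ := by
      intro γ hγ
      obtain ⟨hγF, hγi⟩ := Finset.mem_filter.1 hγ
      obtain ⟨h4, h5⟩ := hj γ hγF
      rw [hγi] at h4 h5
      rw [lt_div_iff₀ hηt] at h4
      rw [div_le_iff₀ hηt] at h5
      constructor
      · calc τ / 2 = (1 / 2 : ℝ) ^ (i + 1) * (η * t) := by rw [hτ, pow_succ]; ring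
          _ < A.kk γ := h4
      · calc A.kk γ ≤ (1 / 2 : ℝ) ^ i * (η * t) := h5
          _ = τ := by rw [hτ]; ring
    have hsub : G ⊆ G.filter (fun γ => ‖A.pt γ - u * (Complex.I - (t : ℝ)) /
          (Complex.I + (t : ℝ))‖ ≤ 2 * (M + 2) * τ) ∪
        G.filter (fun γ => ‖A.pt γ - u * (Complex.I - ((-t : ℝ) : ℂ)) /
          (Complex.I + ((-t : ℝ) : ℂ))‖ ≤ 2 * (M + 2) * τ) := by
      intro γ hγ
      obtain ⟨hγF, -⟩ := Finset.mem_filter.1 hγ
      obtain ⟨h4, -, h5, -⟩ := hFS γ hγF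
      have h6 := B09_geo u (A.pt γ) t M hu (hpt γ) h4 h5
      have h8 : 2 * (M + 2) * (1 - ‖A.pt γ‖ ^ 2) ≤ 2 * (M + 2) * τ :=
        mul_le_mul_of_nonneg_left (hGk γ hγ).2 (by linarith)
      rcases h6 with h6 | h6
      · exact Finset.mem_union_left _ (Finset.mem_filter.2 ⟨hγ, h6.trans h8⟩)
      · exact Finset.mem_union_right _ (Finset.mem_filter.2 ⟨hγ, h6.trans h8⟩)
    have hM2 : 2 ≤ 2 * (M + 2) := by linarith
    have hk1 : ∀ γ ∈ G, τ / (2 * (M + 2)) ≤ A.kk γ ∧ A.kk γ ≤ 2 * (M + 2) * τ := by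
      intro γ hγ
      obtain ⟨h4, h5⟩ := hGk γ hγ
      constructor
      · have : τ / (2 * (M + 2)) ≤ τ / 2 :=
          div_le_div_of_nonneg_left hτ0.le (by norm_num) hM2
        linarith
      · nlinarith
    have hc1 := hpack (u * (Complex.I - (t : ℝ)) / (Complex.I + (t : ℝ))) τ hτ0
      (G.filter (fun γ => ‖A.pt γ - u * (Complex.I - (t : ℝ)) /
          (Complex.I + (t : ℝ))‖ ≤ 2 * (M + 2) * τ))
      (fun γ hγ => by
        obtain ⟨h4, h5⟩ := Finset.mem_filter.1 hγ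
        exact ⟨(hk1 γ h4).1, (hk1 γ h4).2, h5⟩)
    have hc2 := hpack (u * (Complex.I - ((-t : ℝ) : ℂ)) / (Complex.I + ((-t : ℝ) : ℂ))) τ hτ0
      (G.filter (fun γ => ‖A.pt γ - u * (Complex.I - ((-t : ℝ) : ℂ)) /
          (Complex.I + ((-t : ℝ) : ℂ))‖ ≤ 2 * (M + 2) * τ))
      (fun γ hγ => by
        obtain ⟨h4, h5⟩ := Finset.mem_filter.1 hγ
        exact ⟨(hk1 γ h4).1, (hk1 γ h4).2, h5⟩)
    have hc3 : G.card ≤ N + N :=
      (Finset.card_le_card hsub).trans ((Finset.card_union_le _ _).trans (add_le_add hc1 hc2))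
    have hc4 : (G.card : ℝ) ≤ N + N := by exact_mod_cast hc3
    linarith
  -- grouping
  have e2 : ∑ γ ∈ F, A.kk γ = ∑ i ∈ F.image j, ∑ γ ∈ F.filter (fun γ => j γ = i), A.kk γ :=
    (Finset.sum_fiberwise_of_maps_to (fun γ hγ => Finset.mem_image_of_mem j hγ) _).symm
  have e3 : ∀ i : ℕ, ∑ γ ∈ F.filter (fun γ => j γ = i), A.kk γ ≤
      2 * N * (η * t) * (1 / 2 : ℝ) ^ i := by
    intro i
    have h4 : ∀ γ ∈ F.filter (fun γ => j γ = i), A.kk γ ≤ η * t * (1 / 2 : ℝ) ^ i := by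
      intro γ hγ
      obtain ⟨hγF, hγi⟩ := Finset.mem_filter.1 hγ
      obtain ⟨-, h5⟩ := hj γ hγF
      rw [hγi, div_le_iff₀ hηt] at h5
      linarith
    have h5 := Finset.sum_le_card_nsmul _ _ _ h4
    rw [nsmul_eq_mul] at h5
    have h6 := mul_le_mul_of_nonneg_right (hcard i) (by positivity : 0 ≤ η * t * (1 / 2 : ℝ) ^ i)
    linarith
  have e4 : ∑ i ∈ F.image j, (1 / 2 : ℝ) ^ i ≤ 2 := by
    have h4 : ∑ i ∈ F.image j, (1 / 2 : ℝ) ^ i ≤ ∑' i : ℕ, (1 / 2 : ℝ) ^ i :=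
      summable_geometric_two.sum_le_tsum _ (fun i _ => by positivity)
    rw [tsum_geometric_two] at h4
    exact h4
  calc ∑ γ ∈ F, A.kk γ ≤ ∑ i ∈ F.image j, 2 * N * (η * t) * (1 / 2 : ℝ) ^ i := by
        rw [e2]
        exact Finset.sum_le_sum fun i _ => e3 i
    _ = 2 * N * (η * t) * ∑ i ∈ F.image j, (1 / 2 : ℝ) ^ i := by rw [Finset.mul_sum]
    _ ≤ 2 * N * (η * t) * 2 := mul_le_mul_of_nonneg_left e4 (by positivity)
    _ ≤ (4 * N + 1) * η * t := by nlinarith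

end Pool.Agent.SG
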