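import Pool.Agent.helper24.SG.SpecD

/-!
D04 of project sg: (MP_2b8aea_gt): counting the arcs which meet the set of half.
-/

set_option autoImplicit false

open MeasureTheory Set Metric Filter Topology
open scoped ENNReal NNReal ComplexConjugate

namespace Pool.Agent.SG

open Classical in
theorem D04_sub (q : ℕ) (V : ℕ → Set ℂ) (N : ℕ) :
    meet q N (half V N) ⊆ ((Finset.range N).powerset.filter (fun J => N ≤ 2 * J.card)).biUnion
      (fun J => meet q N (⋂ j ∈ J, V j)) := by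
  intro k hk
  unfold meet at hk
  rw [Finset.mem_filter] at hk
  obtain ⟨hk1, ξ, hξa, hξc, hξN⟩ := hk
  rw [Finset.mem_biUnion]
  refine ⟨(Finset.range N).filter (fun j => ξ ∈ V j), ?_, ?_⟩
  · rw [Finset.mem_filter, Finset.mem_powerset]
    exact ⟨Finset.filter_subset _ _, hξN⟩
  · unfold meet
    rw [Finset.mem_filter]
    refine ⟨hk1, ξ, hξa, ?_⟩
    rw [mem_iInter₂]
    intro j hj
    exact (Finset.mem_filter.1 hj).2

open Classical in
theorem D04 (h3 : D03_stmt) : D04_stmt := by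
  intro q V hq hchi N
  set JJ : Finset (Finset ℕ) := (Finset.range N).powerset.filter (fun J => N ≤ 2 * J.card) with hJJ
  set c : Finset ℕ → ℕ := fun J => (meet q N (⋂ j ∈ J, V j)).card with hc
  have h1 : (meet q N (half V N)).card ≤ ∑ J ∈ JJ, c J :=
    (Finset.card_le_card (D04_sub q V N)).trans Finset.card_biUnion_le
  have h2 : JJ.card ≤ 2 ^ N := by
    calc JJ.card ≤ (Finset.range N).powerset.card := Finset.card_le_card (Finset.filter_subset _ _)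
      _ = 2 ^ N := by rw [Finset.card_powerset, Finset.card_range]
  have h4 : ∀ J ∈ JJ, c J ^ 2 * 8 ^ N ≤ (q ^ N) ^ 2 := by
    intro J hJ
    rw [hJJ, Finset.mem_filter, Finset.mem_powerset] at hJ
    obtain ⟨hJ1, hJ2⟩ := hJ
    have h5 := h3 q V hq hchi N J hJ1
    calc c J ^ 2 * 8 ^ N ≤ c J ^ 2 * 8 ^ (2 * J.card) :=
          Nat.mul_le_mul_left _ (Nat.pow_le_pow_right (by norm_num) hJ2)
      _ = (8 ^ J.card * c J) ^ 2 := by rw [mul_pow, ← pow_mul, mul_comm J.card 2, mul_comm]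
      _ ≤ (q ^ N) ^ 2 := Nat.pow_le_pow_left h5 2
  have h5 : (∑ J ∈ JJ, c J) ^ 2 ≤ JJ.card * ∑ J ∈ JJ, c J ^ 2 := sq_sum_le_card_mul_sum_sq
  have h6 : (∑ J ∈ JJ, c J ^ 2) * 8 ^ N ≤ JJ.card * (q ^ N) ^ 2 := by
    rw [Finset.sum_mul]
    have h7 := Finset.sum_le_card_nsmul JJ (fun J => c J ^ 2 * 8 ^ N) ((q ^ N) ^ 2) h4
    rw [smul_eq_mul] at h7
    exact h7
  have h7 : (meet q N (half V N)).card ^ 2 * 8 ^ N ≤ (2 ^ N * 2 ^ N) * (q ^ N) ^ 2 := by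
    calc (meet q N (half V N)).card ^ 2 * 8 ^ N ≤ (∑ J ∈ JJ, c J) ^ 2 * 8 ^ N :=
          Nat.mul_le_mul_right _ (Nat.pow_le_pow_left h1 2)
      _ ≤ (JJ.card * ∑ J ∈ JJ, c J ^ 2) * 8 ^ N := Nat.mul_le_mul_right _ h5
      _ = JJ.card * ((∑ J ∈ JJ, c J ^ 2) * 8 ^ N) := by ring
      _ ≤ JJ.card * (JJ.card * (q ^ N) ^ 2) := Nat.mul_le_mul_left _ h6
      _ = (JJ.card * JJ.card) * (q ^ N) ^ 2 := by ring
      _ ≤ (2 ^ N * 2 ^ N) * (q ^ N) ^ 2 := Nat.mul_le_mul_right _ (Nat.mul_le_mul h2 h2)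
  have h8 : (8 : ℕ) ^ N = 2 ^ N * (2 ^ N * 2 ^ N) := by
    rw [← mul_pow, ← mul_pow]
    norm_num
  rw [h8] at h7
  have h9 : 0 < (2 : ℕ) ^ N * 2 ^ N := by positivity
  apply Nat.le_of_mul_le_mul_left _ h9
  calc 2 ^ N * 2 ^ N * ((meet q N (half V N)).card ^ 2 * 2 ^ N)
      = (meet q N (half V N)).card ^ 2 * (2 ^ N * (2 ^ N * 2 ^ N)) := by ring
    _ ≤ (2 ^ N * 2 ^ N) * (q ^ N) ^ 2 := h7

end Pool.Agent.SG
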