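import Pool.Agent.helper17.SG.SpecM

/-!
M04 of project sg: (MP_2b8aea_gt): uniform absence of atoms.
-/

set_option autoImplicit false

open MeasureTheory Set Metric Filter Topology
open scoped ENNReal NNReal ComplexConjugate

namespace Pool.Agent.SG

theorem M04 : M04_stmt := by
  intro ν _ hcirc hat ε hε
  by_contra hcon
  push Not at hcon
  have hpos : ∀ n : ℕ, (0 : ℝ) < 1 / ((n : ℝ) + 1) := fun n => by positivity
  choose z hz using fun n : ℕ => hcon (1 / ((n : ℝ) + 1)) (hpos n)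
  have hbd : ∀ n, z n ∈ closedBall (0 : ℂ) 2 := by
    intro n
    rw [mem_closedBall, dist_zero_right]
    by_contra h2
    push Not at h2
    have hsub : closedBall (z n) (1 / ((n : ℝ) + 1)) ⊆ circᶜ := by
      intro w hw hwc
      rw [mem_closedBall, dist_eq_norm] at hw
      have h3 : ‖w‖ = 1 := by
        have : w ∈ sphere (0 : ℂ) 1 := hwc
        simpa using this
      have h4 : 1 / ((n : ℝ) + 1) ≤ 1 := by
        rw [div_le_one (by positivity)]
        have : (0 : ℝ) ≤ n := Nat.cast_nonneg n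
        linarith
      have h5 := norm_sub_norm_le (z n) w
      rw [norm_sub_rev] at h5
      linarith
    have h6 := measure_mono_null hsub hcirc
    have h7 := hz n
    rw [h6] at h7
    exact absurd h7 not_lt_zero
  obtain ⟨a, -, φ, hφ, hlim⟩ := (isCompact_closedBall (0 : ℂ) 2).tendsto_subseq hbd
  obtain ⟨U, haU, hUo, hUlt⟩ := ({a} : Set ℂ).exists_isOpen_lt_of_lt (μ := ν) ε
    (by rw [hat a]; exact pos_iff_ne_zero.2 hε)
  obtain ⟨r, hr, hrU⟩ := Metric.nhds_basis_closedBall.mem_iff.1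
    (hUo.mem_nhds (haU (mem_singleton a)))
  have h1 : ∀ᶠ n in atTop, dist ((z ∘ φ) n) a < r / 2 :=
    (Metric.tendsto_nhds.1 hlim) (r / 2) (by positivity)
  have h2 : Tendsto (fun n : ℕ => 1 / (((φ n : ℕ) : ℝ) + 1)) atTop (𝓝 0) :=
    (tendsto_one_div_add_atTop_nhds_zero_nat (𝕜 := ℝ)).comp hφ.tendsto_atTop
  have h3 : ∀ᶠ n in atTop, 1 / (((φ n : ℕ) : ℝ) + 1) < r / 2 :=
    h2.eventually (gt_mem_nhds (by positivity))
  obtain ⟨n, hn1, hn2⟩ := (h1.and h3).exists
  have hsub : closedBall (z (φ n)) (1 / (((φ n : ℕ) : ℝ) + 1)) ⊆ U := by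
    refine Subset.trans ?_ hrU
    apply closedBall_subset_closedBall'
    have : dist (z (φ n)) a < r / 2 := hn1
    linarith
  have h4 := hz (φ n)
  have h5 := measure_mono (μ := ν) hsub
  exact absurd (lt_of_lt_of_le h4 (h5.trans hUlt.le)) (lt_irrefl _)

end Pool.Agent.SG
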