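import Pool.Agent.helper56.SG.SpecG

/-!
PPF of project sg: (MP_2b8aea_gt), part G: facts on the kernel function.
-/

set_option autoImplicit false

open MeasureTheory Set Metric Filter Topology
open scoped ENNReal NNReal ComplexConjugate
open Pool.Agent.SG

noncomputable section

namespace Pool.Agent.SGG

theorem PPF_id (x y : ℂ) :
    ‖1 - conj x * y‖ ^ 2 = (1 - ‖x‖ ^ 2) * (1 - ‖y‖ ^ 2) + ‖x - y‖ ^ 2 := by
  rw [← Complex.normSq_eq_norm_sq, ← Complex.normSq_eq_norm_sq, ← Complex.normSq_eq_norm_sq,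
    ← Complex.normSq_eq_norm_sq]
  simp only [Complex.normSq_apply, Complex.sub_re, Complex.sub_im, Complex.mul_re, Complex.mul_im,
    Complex.conj_re, Complex.conj_im, Complex.one_re, Complex.one_im]
  ring

theorem PPF_lo (x y : ℂ) (hy : ‖y‖ < 1) : 1 - ‖x‖ ≤ ‖1 - conj x * y‖ := by
  have h1 := norm_sub_norm_le (1 : ℂ) (conj x * y)
  rw [norm_one, norm_mul, Complex.norm_conj] at h1
  have h2 : ‖x‖ * ‖y‖ ≤ ‖x‖ * 1 := mul_le_mul_of_nonneg_left hy.le (norm_nonneg _)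
  linarith

theorem PPF_hi (x y : ℂ) (hx : ‖x‖ < 1) (hy : ‖y‖ < 1) : ‖1 - conj x * y‖ ≤ 2 := by
  have h1 := norm_sub_le (1 : ℂ) (conj x * y)
  rw [norm_one, norm_mul, Complex.norm_conj] at h1
  have h2 : ‖x‖ * ‖y‖ ≤ 1 * 1 := mul_le_mul hx.le hy.le (norm_nonneg _) zero_le_one
  linarith

theorem PPF_sq (x : ℂ) (hx : ‖x‖ < 1) : 0 < 1 - ‖x‖ ^ 2 := by
  have h0 := norm_nonneg x
  nlinarith

theorem PPF_symm (x y : ℂ) : pp x y = pp y x := by
  unfold pp
  have h1 : ‖1 - conj x * y‖ = ‖1 - conj y * x‖ := by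
    rw [← Complex.norm_conj (1 - conj x * y)]
    congr 1
    simp
    ring
  rw [h1]
  ring

theorem PPF : PPF_stmt := by
  refine ⟨?_, ?_, ?_, ?_, ?_⟩
  · intro x hx y hy
    rw [mem_ball_zero_iff] at hx hy
    have hx2 := PPF_sq x hx
    have hy2 := PPF_sq y hy
    have hlo := PPF_lo x y hy
    have hpos : 0 < ‖1 - conj x * y‖ := by linarith
    have hpos2 : 0 < ‖1 - conj x * y‖ ^ 2 := by positivity
    refine ⟨?_, ?_, PPF_symm x y, ?_⟩
    · unfold pp
      positivity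
    · unfold pp
      rw [div_le_one hpos2, PPF_id]
      have : 0 ≤ ‖x - y‖ ^ 2 := by positivity
      linarith
    · unfold pp
      have hhi := PPF_hi x y hx hy
      have h4 : ‖1 - conj x * y‖ ^ 2 ≤ 4 := by nlinarith
      exact div_le_div_of_nonneg_left (by positivity) hpos2 h4
  · intro x hx
    rw [mem_ball_zero_iff] at hx
    have hx2 := PPF_sq x hx
    unfold pp
    rw [PPF_id, sub_self, norm_zero]
    have h0 : (1 - ‖x‖ ^ 2) * (1 - ‖x‖ ^ 2) ≠ 0 := by positivity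
    have e : (1 - ‖x‖ ^ 2) * (1 - ‖x‖ ^ 2) + 0 ^ 2 = (1 - ‖x‖ ^ 2) * (1 - ‖x‖ ^ 2) := by ring
    rw [e, div_self h0]
  · intro y
    unfold pp
    simp
  · unfold pp
    apply ContinuousOn.div
    · fun_prop
    · have h1 : Continuous (fun q : ℂ × ℂ => ‖1 - conj q.1 * q.2‖ ^ 2) := by
        have hc : Continuous (fun q : ℂ × ℂ => conj q.1) := Complex.continuous_conj.comp continuous_fst
        exact ((continuous_const.sub (hc.mul continuous_snd)).norm).pow 2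
      exact h1.continuousOn
    · intro q hq
      obtain ⟨h1, h2⟩ := hq
      rw [mem_ball_zero_iff] at h1 h2
      have hlo := PPF_lo q.1 q.2 h2
      have hpos : 0 < ‖1 - conj q.1 * q.2‖ := by linarith
      positivity
  · intro t ρ ht hρ0 hρ1
    refine ⟨max 0 (1 - t * (1 - ρ) / 4), le_max_left _ _, ?_, ?_⟩
    · apply max_lt zero_lt_one
      have : 0 < t * (1 - ρ) := mul_pos ht (by linarith)
      linarith
    · intro x y hx hy htp
      have hx1 : ‖x‖ < 1 := lt_of_le_of_lt hx hρ1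
      have hlo := PPF_lo x y hy
      have hpos : 0 < ‖1 - conj x * y‖ := by linarith
      have hpos2 : 0 < ‖1 - conj x * y‖ ^ 2 := by positivity
      unfold pp at htp
      rw [lt_div_iff₀ hpos2] at htp
      have hx0 := norm_nonneg x
      have hy0 := norm_nonneg y
      have h1 : (1 - ‖x‖) ^ 2 ≤ ‖1 - conj x * y‖ ^ 2 :=
        pow_le_pow_left₀ (by linarith) hlo 2
      have h2 : t * (1 - ‖x‖) ^ 2 < (1 - ‖x‖ ^ 2) * (1 - ‖y‖ ^ 2) :=
        lt_of_le_of_lt (mul_le_mul_of_nonneg_left h1 ht.le) htp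
      have hx3 : 0 < 1 - ‖x‖ := by linarith
      have h3 : t * (1 - ‖x‖) < (1 + ‖x‖) * (1 - ‖y‖ ^ 2) := by
        have e1 : t * (1 - ‖x‖) ^ 2 = (1 - ‖x‖) * (t * (1 - ‖x‖)) := by ring
        have e2 : (1 - ‖x‖ ^ 2) * (1 - ‖y‖ ^ 2) = (1 - ‖x‖) * ((1 + ‖x‖) * (1 - ‖y‖ ^ 2)) := by ring
        rw [e1, e2] at h2
        exact lt_of_mul_lt_mul_left h2 hx3.le
      have hy2 := PPF_sq y hy
      have h4 : (1 + ‖x‖) * (1 - ‖y‖ ^ 2) ≤ 2 * (1 - ‖y‖ ^ 2) :=
        mul_le_mul_of_nonneg_right (by linarith) hy2.le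
      have h5 : 1 - ‖y‖ ^ 2 ≤ 2 * (1 - ‖y‖) := by nlinarith
      have h6 : t * (1 - ρ) ≤ t * (1 - ‖x‖) := mul_le_mul_of_nonneg_left (by linarith) ht.le
      refine le_trans ?_ (le_max_right _ _)
      linarith

end Pool.Agent.SGG
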