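import Pool.Agent.helper3.SG.SpecS

/-!
S05 of project sg: (MP_2b8aea_gt): stabilisers of boundary points are abelian.
-/

set_option autoImplicit false

open MeasureTheory Set Metric Filter Topology
open scoped ENNReal NNReal ComplexConjugate commutatorElement

namespace Pool.Agent.SG

/-- `γ` fixes `ξ` with the data `k`, `p`: upper triangular matrix `[[k, p], [0, 1/k]]`. -/
structure S05_R {Γ : Type} [Group Γ] (A : DiscRep Γ) (ξ : ℂ) (γ : Γ) (k p : ℝ) : Prop where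
  k0 : k ≠ 0
  ha : A.a γ = ⟨(k + 1 / k) / 2, p⟩
  hb : A.b γ = ξ * ((k : ℂ) - A.a γ)

section
variable {Γ : Type} [Group Γ]

theorem S05_xi (ξ : ℂ) (hξ : ξ ∈ circ) : ξ * conj ξ = 1 := by
  have h1 : ‖ξ‖ = 1 := by
    have : ξ ∈ sphere (0 : ℂ) 1 := hξ
    simpa using this
  rw [Complex.mul_conj, Complex.normSq_eq_norm_sq, h1]
  simp

theorem S05_fix (A : DiscRep Γ) (ξ : ℂ) (hξ : ξ ∈ circ) (γ : Γ) (h : A.act γ ξ = ξ) :
    ∃ k p : ℝ, S05_R A ξ γ k p := by
  have hx := S05_xi ξ hξ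
  have hξ0 : ξ ≠ 0 := by
    rintro rfl
    simp at hx
  have hn : ‖ξ‖ = 1 := by
    have : ξ ∈ sphere (0 : ℂ) 1 := hξ
    simpa using this
  unfold DiscRep.act mob at h
  set κ : ℂ := conj (A.b γ) * ξ + conj (A.a γ) with hκ
  have hκ0 : κ ≠ 0 := by
    intro h0
    rw [h0, div_zero] at h
    exact hξ0 h.symm
  rw [div_eq_iff hκ0] at h
  have hc := congrArg conj h
  simp only [map_add, map_mul] at hc
  have hreal : conj κ = κ := by
    have h1 : κ = conj κ := by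
      calc κ = ξ * (conj (A.a γ) * conj ξ + conj (A.b γ)) := by
            rw [hκ]
            linear_combination (-conj (A.a γ)) * hx
        _ = ξ * (conj ξ * conj κ) := by rw [hc]
        _ = conj κ := by rw [← mul_assoc, hx, one_mul]
    exact h1.symm
  obtain ⟨k, hk⟩ := Complex.conj_eq_iff_real.1 hreal
  have hb : A.b γ = ξ * ((k : ℂ) - A.a γ) := by
    rw [← hk]
    linear_combination h
  have hnorm := A.norm_eq γ
  have hb2 : ‖A.b γ‖ ^ 2 = ‖(k : ℂ) - A.a γ‖ ^ 2 := by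
    rw [hb, norm_mul, hn, one_mul]
  rw [hb2, ← Complex.normSq_eq_norm_sq, ← Complex.normSq_eq_norm_sq, Complex.normSq_apply,
    Complex.normSq_apply] at hnorm
  simp only [Complex.sub_re, Complex.sub_im, Complex.ofReal_re, Complex.ofReal_im] at hnorm
  have hk0 : k ≠ 0 := by
    rintro rfl
    nlinarith
  refine ⟨k, (A.a γ).im, hk0, ?_, hb⟩
  apply Complex.ext
  · show (A.a γ).re = (k + 1 / k) / 2
    field_simp
    nlinarith
  · rfl

theorem S05_mul (h1 : S01_stmt) (A : DiscRep Γ) (ξ : ℂ) (hξ : ξ ∈ circ) (γ δ : Γ) (k p l q : ℝ)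
    (hγ : S05_R A ξ γ k p) (hδ : S05_R A ξ δ l q) :
    ∃ e : ℝ, (e = 1 ∨ e = -1) ∧ S05_R A ξ (γ * δ) (e * (k * l)) (e * (k * q + p / l)) := by
  have hx := S05_xi ξ hξ
  obtain ⟨hmul, -, -⟩ := h1 Γ A
  obtain ⟨ε, hε, ha, hb⟩ := hmul γ δ
  have hk := hγ.k0
  have hl := hδ.k0
  have hcb : conj (A.b δ) = conj ξ * ((l : ℂ) - conj (A.a δ)) := by
    rw [hδ.hb]
    simp
  have ha2 : A.a (γ * δ) = ε * (⟨(k * l + 1 / (k * l)) / 2, k * q + p / l⟩ : ℂ) := by
    rw [ha, hcb, hγ.hb]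
    have e1 : A.a γ * A.a δ + ξ * ((k : ℂ) - A.a γ) * (conj ξ * ((l : ℂ) - conj (A.a δ))) =
        A.a γ * A.a δ + ((k : ℂ) - A.a γ) * ((l : ℂ) - conj (A.a δ)) := by
      linear_combination (((k : ℂ) - A.a γ) * ((l : ℂ) - conj (A.a δ))) * hx
    rw [e1, hγ.ha, hδ.ha]
    congr 1
    apply Complex.ext
    · simp only [Complex.add_re, Complex.mul_re, Complex.sub_re, Complex.sub_im, Complex.conj_re,
        Complex.conj_im, Complex.ofReal_re, Complex.ofReal_im]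
      field_simp
      ring
    · simp only [Complex.add_im, Complex.mul_im, Complex.sub_re, Complex.sub_im, Complex.conj_re,
        Complex.conj_im, Complex.ofReal_re, Complex.ofReal_im]
      field_simp
      ring
  have hb2 : A.b (γ * δ) = ξ * (ε * ((k * l : ℝ) : ℂ) - A.a (γ * δ)) := by
    rw [hb, ha, hcb, hδ.hb, hγ.hb]
    push_cast
    linear_combination (ξ * ε * ((k : ℂ) - A.a γ) * ((l : ℂ) - conj (A.a δ))) * hx
  rcases hε with rfl | rfl
  · refine ⟨1, Or.inl rfl, ?_, ?_, ?_⟩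
    · rw [one_mul]
      exact mul_ne_zero hk hl
    · rw [ha2]
      simp
    · rw [hb2]
      push_cast
      ring
  · refine ⟨-1, Or.inr rfl, ?_, ?_, ?_⟩
    · have := mul_ne_zero hk hl
      simpa using this
    · rw [ha2]
      apply Complex.ext
      · simp
        field_simp
        ring
      · simp
    · rw [hb2]
      push_cast
      ring

theorem S05_inv (h1 : S01_stmt) (A : DiscRep Γ) (ξ : ℂ) (γ : Γ) (k p : ℝ)
    (hγ : S05_R A ξ γ k p) :
    ∃ e : ℝ, (e = 1 ∨ e = -1) ∧ S05_R A ξ γ⁻¹ (e / k) (-(e * p)) := by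
  obtain ⟨-, -, hinv⟩ := h1 Γ A
  obtain ⟨ε, hε, ha, hb⟩ := hinv γ
  have hk := hγ.k0
  have hsum : A.a γ + conj (A.a γ) = ((k + 1 / k : ℝ) : ℂ) := by
    rw [hγ.ha]
    apply Complex.ext
    · simp
    · simp
  have hkc : (k : ℂ) ≠ 0 := by exact_mod_cast hk
  rcases hε with rfl | rfl
  · refine ⟨1, Or.inl rfl, by positivity, ?_, ?_⟩
    · rw [ha, hγ.ha]
      apply Complex.ext
      · simp
        ring
      · simp
    · rw [hb, ha, hγ.hb]
      push_cast at hsum ⊢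
      linear_combination ξ * hsum
  · refine ⟨-1, Or.inr rfl, ?_, ?_, ?_⟩
    · exact div_ne_zero (by norm_num) hk
    · rw [ha, hγ.ha]
      apply Complex.ext
      · simp
        field_simp
        ring
      · simp
    · rw [hb, ha, hγ.hb]
      push_cast at hsum ⊢
      have e1 : (-1 : ℂ) / (k : ℂ) = -(1 / (k : ℂ)) := by ring
      rw [e1]
      linear_combination (-ξ) * hsum

theorem S05_conj (h1 : S01_stmt) (A : DiscRep Γ) (ξ : ℂ) (hξ : ξ ∈ circ) (y c : Γ) (l s e t : ℝ)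
    (hy : S05_R A ξ y l s) (hc : S05_R A ξ c e t) (he : e = 1 ∨ e = -1) :
    ∃ e' t' : ℝ, (e' = 1 ∨ e' = -1) ∧ S05_R A ξ (y * c * y⁻¹) e' t' ∧ |t'| = l ^ 2 * |t| := by
  obtain ⟨e1, h1e, r1⟩ := S05_mul h1 A ξ hξ y c l s e t hy hc
  obtain ⟨e2, h2e, r2⟩ := S05_inv h1 A ξ y l s hy
  obtain ⟨e3, h3e, r3⟩ := S05_mul h1 A ξ hξ _ _ _ _ _ _ r1 r2
  have hl := hy.k0
  have habs : |l ^ 2 * t| = l ^ 2 * |t| := by rw [abs_mul, abs_of_nonneg (sq_nonneg l)]
  refine ⟨_, _, ?_, r3, ?_⟩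
  · rcases h1e with rfl | rfl <;> rcases h2e with rfl | rfl <;> rcases h3e with rfl | rfl <;>
      rcases he with rfl | rfl <;> field_simp <;> norm_num
  · rw [← habs]
    have key : e3 * (e1 * (l * e) * -(e2 * s) + e1 * (l * t + s / e) / (e2 / l)) = l ^ 2 * t ∨
        e3 * (e1 * (l * e) * -(e2 * s) + e1 * (l * t + s / e) / (e2 / l)) = -(l ^ 2 * t) := by
      rcases h1e with rfl | rfl <;> rcases h2e with rfl | rfl <;> rcases h3e with rfl | rfl <;>
        rcases he with rfl | rfl <;> first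
          | (left; field_simp; ring1)
          | (right; field_simp; ring1)
    rcases key with key | key
    · rw [key]
    · rw [key, abs_neg]

theorem S05_comm (h1 : S01_stmt) (A : DiscRep Γ) (ξ : ℂ) (hξ : ξ ∈ circ) (x z : Γ) (k p l q : ℝ)
    (hx : S05_R A ξ x k p) (hz : S05_R A ξ z l q) :
    ∃ e t : ℝ, (e = 1 ∨ e = -1) ∧ S05_R A ξ ⁅x, z⁆ e t ∧
      |t| = |l * q * (k ^ 2 - 1) + k * p * (1 - l ^ 2)| := by
  obtain ⟨e1, h1e, r1⟩ := S05_mul h1 A ξ hξ x z k p l q hx hz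
  obtain ⟨e2, h2e, r2⟩ := S05_inv h1 A ξ x k p hx
  obtain ⟨e3, h3e, r3⟩ := S05_mul h1 A ξ hξ _ _ _ _ _ _ r1 r2
  obtain ⟨e4, h4e, r4⟩ := S05_inv h1 A ξ z l q hz
  obtain ⟨e5, h5e, r5⟩ := S05_mul h1 A ξ hξ _ _ _ _ _ _ r3 r4
  have hk := hx.k0
  have hl := hz.k0
  rw [commutatorElement_def]
  refine ⟨_, _, ?_, r5, ?_⟩
  · rcases h1e with rfl | rfl <;> rcases h2e with rfl | rfl <;> rcases h3e with rfl | rfl <;>
      rcases h4e with rfl | rfl <;> rcases h5e with rfl | rfl <;> field_simp <;> norm_num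
  · have key : e5 * (e3 * (e1 * (k * l) * (e2 / k)) * -(e4 * q) +
          e3 * (e1 * (k * l) * -(e2 * p) + e1 * (k * q + p / l) / (e2 / k)) / (e4 / l)) =
          l * q * (k ^ 2 - 1) + k * p * (1 - l ^ 2) ∨
        e5 * (e3 * (e1 * (k * l) * (e2 / k)) * -(e4 * q) +
          e3 * (e1 * (k * l) * -(e2 * p) + e1 * (k * q + p / l) / (e2 / k)) / (e4 / l)) =
          -(l * q * (k ^ 2 - 1) + k * p * (1 - l ^ 2)) := by
      rcases h1e with rfl | rfl <;> rcases h2e with rfl | rfl <;> rcases h3e with rfl | rfl <;>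
        rcases h4e with rfl | rfl <;> rcases h5e with rfl | rfl <;> first
          | (left; field_simp; ring1)
          | (right; field_simp; ring1)
    rcases key with key | key
    · rw [key]
    · rw [key, abs_neg]

theorem S05_inf (h1 : S01_stmt) (A : DiscRep Γ)
    (hfin : ∀ K : ℝ, {γ | ‖A.a γ‖ ≤ K}.Finite) (ξ : ℂ) (hξ : ξ ∈ circ) (y c : Γ) (l s e t : ℝ)
    (hy : S05_R A ξ y l s) (hl : l ^ 2 < 1) (hc : S05_R A ξ c e t) (he : e = 1 ∨ e = -1)
    (ht : t ≠ 0) : False := by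
  have hind : ∀ n : ℕ, ∃ e' t' : ℝ, (e' = 1 ∨ e' = -1) ∧
      S05_R A ξ (y ^ n * c * (y ^ n)⁻¹) e' t' ∧ |t'| = (l ^ 2) ^ n * |t| := by
    intro n
    induction n with
    | zero => exact ⟨e, t, he, by simpa using hc, by simp⟩
    | succ n ih =>
      obtain ⟨e', t', he', hr, hab⟩ := ih
      obtain ⟨e'', t'', he'', hr', hab'⟩ := S05_conj h1 A ξ hξ y _ l s e' t' hy hr he'
      refine ⟨e'', t'', he'', ?_, ?_⟩
      · have e1 : y ^ (n + 1) * c * (y ^ (n + 1))⁻¹ = y * (y ^ n * c * (y ^ n)⁻¹) * y⁻¹ := by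
          rw [pow_succ']
          group
        rw [e1]
        exact hr'
      · rw [hab', hab, pow_succ']
        ring
  choose e' t' he' hr hab using hind
  have hl0 : 0 < l ^ 2 := by
    have := hy.k0
    positivity
  have htp : 0 < |t| := abs_pos.2 ht
  have him : ∀ n, (A.a (y ^ n * c * (y ^ n)⁻¹)).im = t' n := by
    intro n
    rw [(hr n).ha]
  have hinj : Function.Injective (fun n : ℕ => y ^ n * c * (y ^ n)⁻¹) := by
    intro m n hmn
    have h2 : t' m = t' n := by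
      rw [← him m, ← him n]
      exact congrArg (fun g => (A.a g).im) hmn
    have h3 : (l ^ 2) ^ m * |t| = (l ^ 2) ^ n * |t| := by rw [← hab m, ← hab n, h2]
    have h4 : (l ^ 2) ^ m = (l ^ 2) ^ n := mul_right_cancel₀ htp.ne' h3
    exact (pow_right_injective₀ hl0 hl.ne) h4
  have hmem : ∀ n : ℕ, (fun n : ℕ => y ^ n * c * (y ^ n)⁻¹) n ∈ {γ | ‖A.a γ‖ ≤ 1 + |t|} := by
    intro n
    show ‖A.a (y ^ n * c * (y ^ n)⁻¹)‖ ≤ 1 + |t|
    have h2 := Complex.norm_le_abs_re_add_abs_im (A.a (y ^ n * c * (y ^ n)⁻¹))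
    have h3 : (A.a (y ^ n * c * (y ^ n)⁻¹)).re = e' n := by
      rw [(hr n).ha]
      rcases he' n with h | h <;> rw [h] <;> norm_num
    rw [h3, him n, hab n] at h2
    have h4 : |e' n| = 1 := by rcases he' n with h | h <;> rw [h] <;> norm_num
    have h5 : (l ^ 2) ^ n * |t| ≤ 1 * |t| :=
      mul_le_mul_of_nonneg_right (pow_le_one₀ hl0.le hl.le) htp.le
    linarith
  exact (Set.infinite_of_injective_forall_mem hinj hmem) (hfin _)

end

theorem S05 (h1 : S01_stmt) (h2 : S02_stmt) (h4 : S04_stmt) : S05_stmt := by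
  intro Γ _ hTF A hA ξ hξ x z hxf hzf
  obtain ⟨-, -, -, -, -, -, -, hdisc⟩ := h2 Γ A
  have hfin := hdisc.1 hA
  obtain ⟨hdev, -⟩ := h4 Γ hTF A hA
  obtain ⟨k, p, hx⟩ := S05_fix A ξ hξ x hxf
  obtain ⟨l, q, hz⟩ := S05_fix A ξ hξ z hzf
  obtain ⟨e, t, he, hc, habs⟩ := S05_comm h1 A ξ hξ x z k p l q hx hz
  have hsmall : ∀ (y : Γ) (m s : ℝ), S05_R A ξ y m s → m ^ 2 ≠ 1 → t = 0 := by
    intro y m s hy hm
    by_contra ht
    rcases lt_or_gt_of_ne hm with hlt | hgt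
    · exact S05_inf h1 A hfin ξ hξ y _ m s e t hy hlt hc he ht
    · obtain ⟨e2, h2e, r2⟩ := S05_inv h1 A ξ y m s hy
      refine S05_inf h1 A hfin ξ hξ _ _ _ _ e t r2 ?_ hc he ht
      have h5 : e2 ^ 2 = 1 := by rcases h2e with rfl | rfl <;> norm_num
      rw [div_pow, h5, div_lt_one (by linarith)]
      exact hgt
  have ht : t = 0 := by
    by_cases hk : k ^ 2 = 1
    · by_cases hl : l ^ 2 = 1
      · rw [hk, hl] at habs
        simpa using habs
      · exact hsmall z l q hz hl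
    · exact hsmall x k p hx hk
  have hee : (e + 1 / e) / 2 = e := by rcases he with rfl | rfl <;> norm_num
  have ha : A.a ⁅x, z⁆ = (e : ℂ) := by
    rw [hc.ha, ht, hee]
    rfl
  have hb : A.b ⁅x, z⁆ = 0 := by
    rw [hc.hb, ha, sub_self, mul_zero]
  have hd : A.dev ⁅x, z⁆ = 0 := by
    unfold DiscRep.dev
    rw [ha, hb, norm_zero, add_zero]
    rcases he with rfl | rfl
    · simp
    · simp
  exact commutatorElement_eq_one_iff_commute.1 (hdev _ hd)

end Pool.Agent.SG
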